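import Mathlib
import Pool.Agent.H6.AP3.Omega

set_option autoImplicit false

/-!
# The local step for a general finite system of edges

A pair `(n, q)` with `q ∣ n^2+1` stands for a basis `u, v` of `Z[i]` with norm of `v` equal to `q`
and scalar product `n`. The vector `B u + A v` has norm `nrm n q (B, A)`.
-/

open Finset ArithmeticFunction

namespace Pool.Agent.H6.AP

open Pool.Agent.H6.AP3

/-- norm of `B u + A v` -/
def nrm (n q : ℕ) (x : ℕ × ℕ) : ℕ := ((x.1 * n + x.2 * q) ^ 2 + x.1 ^ 2) / q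

theorem nrm_mul {n q : ℕ} (h : q ∣ n ^ 2 + 1) (x : ℕ × ℕ) :
    nrm n q x * q = (x.1 * n + x.2 * q) ^ 2 + x.1 ^ 2 := by
  rw [nrm]
  apply Nat.div_mul_cancel
  have e : (x.1 * n + x.2 * q) ^ 2 + x.1 ^ 2 =
      x.1 ^ 2 * (n ^ 2 + 1) + q * (2 * x.1 * x.2 * n + x.2 ^ 2 * q) := by ring
  rw [e]
  exact dvd_add (h.mul_left _) (dvd_mul_right _ _)

/-- Key identity. `(1, y)` is a leaf, `(B, A)` a centre and `D = B y - A`. -/
theorem edge_identity {n q y B A D d : ℕ} (hq : 0 < q) (h : q ∣ n ^ 2 + 1)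
    (hD : 0 < D) (hB : 0 < B) (hAD : B * y = A + D) (hd : nrm n q (1, y) = D * d)
    (hn : D * q ≤ n) :
    ∃ e : ℕ, nrm n q (B, A) = D * e ∧ n + y * q < B * d ∧
      (B * d - (n + y * q)) ^ 2 + 1 = d * e := by
  obtain ⟨N, hN⟩ : ∃ N, N = n + y * q := ⟨_, rfl⟩
  have h1 : D * d * q = N ^ 2 + 1 := by
    have := nrm_mul h (1, y)
    simp only [one_mul, one_pow] at this
    rw [← hd, this, hN]
  have hNn : n ≤ N := by rw [hN]; omega
  have hDN : D * q ≤ N := hn.trans hNn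
  have hdN : N < d := by
    by_contra hcon
    push Not at hcon
    have h2 : D * d * q ≤ N * N := by
      calc D * d * q = d * (D * q) := by ring
        _ ≤ N * N := Nat.mul_le_mul hcon hDN
    nlinarith
  have hBd : N < B * d := lt_of_lt_of_le hdN (Nat.le_mul_of_pos_left _ hB)
  -- work in the integers
  have h3 := nrm_mul h (B, A)
  simp only at h3
  have hBN : B * n + A * q + D * q = B * N := by
    rw [hN]
    calc B * n + A * q + D * q = B * n + (A + D) * q := by ring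
      _ = B * n + B * y * q := by rw [← hAD]
      _ = B * (n + y * q) := by ring
  obtain ⟨Z, hZ⟩ : ∃ Z, Z = B * n + A * q := ⟨_, rfl⟩
  rw [← hZ] at h3 hBN
  -- e = B^2 d - 2 B N + D q  (nonnegative)
  have hNz : (N : ℤ) ^ 2 + 1 = D * d * q := by exact_mod_cast h1.symm
  have hZz : (Z : ℤ) = B * N - D * q := by
    have : (Z : ℤ) + D * q = B * N := by exact_mod_cast hBN
    linarith
  have h3z : (nrm n q (B, A) : ℤ) * q = (Z : ℤ) ^ 2 + B ^ 2 := by exact_mod_cast h3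
  have hqz : (q : ℤ) ≠ 0 := by exact_mod_cast hq.ne'
  have hnz : (nrm n q (B, A) : ℤ) = D * ((B : ℤ) ^ 2 * d - 2 * B * N + D * q) := by
    have : (nrm n q (B, A) : ℤ) * q = D * ((B : ℤ) ^ 2 * d - 2 * B * N + D * q) * q := by
      rw [h3z, hZz]
      linear_combination (B : ℤ) ^ 2 * hNz
    exact mul_right_cancel₀ hqz this
  have hDz : (0 : ℤ) < D := by exact_mod_cast hD
  have he0 : (0 : ℤ) ≤ (B : ℤ) ^ 2 * d - 2 * B * N + D * q := by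
    by_contra hcon
    push Not at hcon
    have h4 : (D : ℤ) * ((B : ℤ) ^ 2 * d - 2 * B * N + D * q) < 0 := mul_neg_of_pos_of_neg hDz hcon
    have h5 : (0 : ℤ) ≤ (nrm n q (B, A) : ℤ) := Int.natCast_nonneg _
    rw [hnz] at h5
    linarith
  obtain ⟨e, he⟩ := Int.eq_ofNat_of_zero_le he0
  refine ⟨e, ?_, ?_, ?_⟩
  · have : (nrm n q (B, A) : ℤ) = ((D * e : ℕ) : ℤ) := by
      rw [hnz, he]; push_cast; rfl
    exact_mod_cast this
  · rw [← hN]; exact hBd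
  · rw [← hN]
    have h6 : (((B * d - N : ℕ)) : ℤ) = B * d - N := by
      rw [Nat.cast_sub hBd.le]; push_cast; rfl
    have h7 : ((((B * d - N) ^ 2 + 1 : ℕ)) : ℤ) = ((d * e : ℕ) : ℤ) := by
      push_cast
      rw [h6]
      have he' : (e : ℤ) = (B : ℤ) ^ 2 * d - 2 * B * N + D * q := he.symm
      rw [he']
      linear_combination hNz
    exact_mod_cast h7

/-- recover `(n, q)` from the value `a`, the edge and the divisor `d` -/
def dec (a : ℕ) (x : (ℕ × ℕ × ℕ × ℕ) × ℕ) : ℕ × ℕ :=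
  match x with
  | ((y, B, _, D), d) =>
    (B * d - a - y * (((B * d - a) ^ 2 + 1) / (D * d)), ((B * d - a) ^ 2 + 1) / (D * d))

/-- the hypotheses on the edges -/
def EdgeOK (Q s0 : ℕ) (E : Finset (ℕ × ℕ × ℕ × ℕ)) : Prop :=
  ∀ x ∈ E, 0 < x.2.1 ∧ 0 < x.2.2.2 ∧ x.2.1 * x.1 = x.2.2.1 + x.2.2.2 ∧ x.2.2.2 ∣ Q ∧
    x.2.2.2 ∣ (s0 + x.1) ^ 2 + 1

/-- no colouring avoids `r` -/
def Unsat {k : ℕ} (E : Finset (ℕ × ℕ × ℕ × ℕ)) (g : ℕ → ZMod k) (r : ZMod k) : Prop :=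
  ∀ c : ℕ × ℕ → ZMod k, ∃ x ∈ E, c (1, x.1) + c (x.2.1, x.2.2.1) - 2 * g x.2.2.2 = r

theorem local_step {k : ℕ} {n q Q s0 m0 K : ℕ} {E : Finset (ℕ × ℕ × ℕ × ℕ)}
    (hE : EdgeOK Q s0 E) (hm0 : m0 ∣ Q) (hE2 : ∀ x ∈ E, m0 ∣ x.1 ∧ m0 ∣ x.2.1)
    (hq : 0 < q) (h : q ∣ n ^ 2 + 1)
    (hns : n ≡ s0 [MOD Q]) (hq1 : q ≡ 1 [MOD Q])
    (hbig : ∀ x ∈ E, x.2.2.2 * q ≤ n)
    (g : ℕ → ZMod k) (hg : ∀ m n : ℕ, m ≠ 0 → n ≠ 0 → g (m * n) = g m + g n)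
    (r : ZMod k) (hU : Unsat E g r)
    (hK : ∀ x ∈ E, cardFactors (nrm n q (1, x.1)) ≤ K ∧
      cardFactors (nrm n q (x.2.1, x.2.2.1)) ≤ K) :
    ∃ a, ∃ x ∈ E, ∃ d, g (a ^ 2 + 1) = r ∧ cardFactors (a ^ 2 + 1) ≤ 2 * K ∧
      d ∈ (a ^ 2 + 1).divisors ∧ 1 ≤ a ∧ a ≤ x.2.1 * nrm n q (1, x.1) ∧
      m0 ∣ a + s0 ∧ dec a (x, d) = (n, q) := by
  obtain ⟨⟨y, B, A, D⟩, hx, hr⟩ := hU (fun v => g (nrm n q v))
  obtain ⟨hB, hD, hAD, hDQ, hDs⟩ := hE _ hx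
  obtain ⟨hK1, hK2⟩ := hK _ hx
  obtain ⟨hmy, hmB⟩ := hE2 _ hx
  have hb := hbig _ hx
  simp only at hB hD hAD hDQ hDs hK1 hK2 hb hr hmy hmB
  -- D divides the norm of the leaf
  have hDn : D ∣ nrm n q (1, y) := by
    have h1 : D ∣ nrm n q (1, y) * q := by
      rw [nrm_mul h (1, y)]
      simp only [one_mul, one_pow]
      have h2 : n + y * q ≡ s0 + y [MOD D] := by
        have h3 := (hq1.of_dvd hDQ).mul_left y
        rw [mul_one] at h3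
        exact (hns.of_dvd hDQ).add h3
      exact (((h2.pow 2).add_right 1).dvd_iff dvd_rfl).2 hDs
    have h2 : Nat.Coprime D q := by
      have h3 : q ≡ 1 [MOD D] := hq1.of_dvd hDQ
      rw [Nat.Coprime, Nat.gcd_comm, h3.gcd_eq]
      simp
    exact h2.dvd_of_dvd_mul_right h1
  obtain ⟨d, hd⟩ := hDn
  obtain ⟨e, he1, he2, he3⟩ := edge_identity hq h hD hB hAD hd hb
  have hd0 : d ≠ 0 := by rintro rfl; simp at he3
  have he0 : e ≠ 0 := by rintro rfl; simp at he3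
  have hD0 : D ≠ 0 := hD.ne'
  refine ⟨B * d - (n + y * q), (y, B, A, D), hx, d, ?_, ?_, ?_, ?_, ?_, ?_, ?_⟩
  · rw [he3, hg _ _ hd0 he0, ← hr, hd, he1, hg _ _ hD0 hd0, hg _ _ hD0 he0]
    ring
  · rw [he3, cardFactors_mul hd0 he0]
    rw [hd, cardFactors_mul hD0 hd0] at hK1
    rw [he1, cardFactors_mul hD0 he0] at hK2
    omega
  · rw [Nat.mem_divisors]
    exact ⟨⟨e, he3⟩, by omega⟩
  · omega
  · simp only
    rw [hd]
    calc B * d - (n + y * q) ≤ B * d := Nat.sub_le _ _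
      _ ≤ B * (D * d) := Nat.mul_le_mul_left _ (Nat.le_mul_of_pos_left _ hD)
  · have e1 : B * d - (n + y * q) + n ≡ 0 [MOD m0] := by
      have e2 : B * d - (n + y * q) + n + y * q = B * d := by omega
      have e3 : B * d - (n + y * q) + n + y * q ≡ 0 + y * q [MOD m0] := by
        rw [e2, zero_add]
        exact ((Nat.modEq_zero_iff_dvd).2 (hmB.mul_right d)).trans
          ((Nat.modEq_zero_iff_dvd).2 (hmy.mul_right q)).symm
      exact Nat.ModEq.add_right_cancel' _ e3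
    have e4 : B * d - (n + y * q) + n ≡ B * d - (n + y * q) + s0 [MOD m0] :=
      (Nat.ModEq.refl _).add (hns.of_dvd hm0)
    exact (Nat.modEq_zero_iff_dvd).1 (e4.symm.trans e1)
  · have e1 : B * d - (B * d - (n + y * q)) = n + y * q := by omega
    have e2 : ((n + y * q) ^ 2 + 1) / (D * d) = q := by
      have := nrm_mul h (1, y)
      simp only [one_mul, one_pow] at this
      rw [← this, hd]
      exact Nat.mul_div_cancel_left _ (Nat.mul_pos hD (Nat.pos_of_ne_zero hd0))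
    simp only [dec, e1, e2, Nat.add_sub_cancel]

theorem count_step {k : ℕ} {Q s0 m0 K X : ℕ} {E : Finset (ℕ × ℕ × ℕ × ℕ)}
    (hE : EdgeOK Q s0 E) (hm0 : m0 ∣ Q) (hE2 : ∀ x ∈ E, m0 ∣ x.1 ∧ m0 ∣ x.2.1)
    (g : ℕ → ZMod k) (hg : ∀ m n : ℕ, m ≠ 0 → n ≠ 0 → g (m * n) = g m + g n)
    (r : ZMod k) (hU : Unsat E g r) (P : Finset (ℕ × ℕ))
    (hP : ∀ z ∈ P, 0 < z.2 ∧ z.2 ∣ z.1 ^ 2 + 1 ∧ z.1 ≡ s0 [MOD Q] ∧ z.2 ≡ 1 [MOD Q] ∧
      (∀ x ∈ E, x.2.2.2 * z.2 ≤ z.1 ∧ cardFactors (nrm z.1 z.2 (1, x.1)) ≤ K ∧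
        cardFactors (nrm z.1 z.2 (x.2.1, x.2.2.1)) ≤ K ∧ x.2.1 * nrm z.1 z.2 (1, x.1) ≤ X)) :
    P.card ≤ ((Icc 1 X).filter
      (fun n => m0 ∣ n + s0 ∧ cardFactors (n ^ 2 + 1) ≤ 2 * K ∧ g (n ^ 2 + 1) = r)).card *
        (E.card * 2 ^ (2 * K)) := by
  classical
  set G := (Icc 1 X).filter
    (fun n => m0 ∣ n + s0 ∧ cardFactors (n ^ 2 + 1) ≤ 2 * K ∧ g (n ^ 2 + 1) = r) with hG
  set U : Finset (ℕ × ℕ) := G.biUnion (fun a => ((E ×ˢ (a ^ 2 + 1).divisors).image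
    (fun z => dec a z))) with hU'
  have hsub : P ⊆ U := by
    intro z hz
    obtain ⟨h1, h2, h3, h4, h5⟩ := hP z hz
    obtain ⟨a, x, hx, d, k1, k2, k3, k4, k5, k7, k6⟩ := local_step hE hm0 hE2 h1 h2 h3 h4
      (fun x hx => (h5 x hx).1) g hg r hU (fun x hx => ⟨(h5 x hx).2.1, (h5 x hx).2.2.1⟩)
    rw [hU', mem_biUnion]
    refine ⟨a, ?_, ?_⟩
    · rw [hG, mem_filter, mem_Icc]
      exact ⟨⟨k4, k5.trans (h5 x hx).2.2.2⟩, k7, k2, k1⟩
    · rw [mem_image]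
      exact ⟨(x, d), mem_product.2 ⟨hx, k3⟩, k6⟩
  refine (card_le_card hsub).trans ?_
  rw [hU']
  refine card_biUnion_le_card_mul _ _ _ ?_
  intro n hn
  refine card_image_le.trans ?_
  rw [card_product]
  rw [hG, mem_filter] at hn
  have h1 := card_divisors_le (n ^ 2 + 1) (by omega)
  have h2 : 2 ^ cardFactors (n ^ 2 + 1) ≤ 2 ^ (2 * K) :=
    Nat.pow_le_pow_right (by norm_num) hn.2.2.1
  gcongr
  exact h1.trans h2

end Pool.Agent.H6.AP
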