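import Mathlib
import Pool.Agent.H6.AP3.Roots

set_option autoImplicit false

/-!
# The modulus and the bound for the number of prime factors
-/

open Finset ArithmeticFunction

namespace Pool.Agent.H6.AP

open Pool.Agent.H6.AP3

/-- fixed part of the form `x` -/
def fix (s0 : ℕ) (x : ℕ × ℕ) : ℕ := (x.1 * s0 + x.2) ^ 2 + x.1 ^ 2

/-- the properties of the modulus `M` -/
structure IsModV (V : Finset (ℕ × ℕ)) (T Q s0 M K : ℕ) : Prop where
  gt : 1 < M
  small : ∀ q : ℕ, q.Prime → q ≤ T → q ∣ M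
  base : Q ∣ M
  coef : ∀ x ∈ V, x.1 ∣ M
  mul : ∀ x ∈ V, ∀ q : ℕ, q.Prime → q ∣ M → fix s0 x * q ∣ M
  om : ∀ x ∈ V, cardFactors (fix s0 x) ≤ K

theorem exists_modV (V : Finset (ℕ × ℕ)) (hV : ∀ x ∈ V, 0 < x.1) (T Q s0 : ℕ) (hQ : 0 < Q) :
    ∃ M K : ℕ, IsModV V T Q s0 M K := by
  obtain ⟨W, hW⟩ : ∃ W, W = ∏ x ∈ V, fix s0 x := ⟨_, rfl⟩
  obtain ⟨P, hP⟩ : ∃ P, P = ∏ x ∈ V, x.1 := ⟨_, rfl⟩
  have hfix : ∀ x ∈ V, 0 < fix s0 x := by
    intro x hx
    have := hV x hx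
    rw [fix]; positivity
  have hW0 : 0 < W := by rw [hW]; exact prod_pos hfix
  have hP0 : 0 < P := by rw [hP]; exact prod_pos hV
  refine ⟨W * (2 * W * T.factorial * Q * P), cardFactors W, ?_, ?_, ?_, ?_, ?_, ?_⟩
  · have h1 : 1 * (2 * 1 * 1 * 1 * 1) ≤ W * (2 * W * T.factorial * Q * P) := by
      gcongr
      · exact hW0
      · exact hW0
      · exact Nat.factorial_pos _
      · exact hQ
      · exact hP0
    omega
  · intro q hq hqT
    exact ((((Nat.dvd_factorial hq.pos hqT).mul_left _).mul_right _).mul_right _).mul_left _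
  · exact (((dvd_mul_left Q _).mul_right _)).mul_left _
  · intro x hx
    have : x.1 ∣ P := by rw [hP]; exact dvd_prod_of_mem (fun x : ℕ × ℕ => x.1) hx
    exact (this.mul_left _).mul_left _
  · intro x hx q hq hqM
    have h1 : q ∣ 2 * W * T.factorial * Q * P := by
      rcases hq.dvd_mul.1 hqM with h | h
      · exact (((h.mul_left _).mul_right _).mul_right _).mul_right _
      · exact h
    have h2 : fix s0 x ∣ W := by rw [hW]; exact dvd_prod_of_mem (fun x => fix s0 x) hx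
    exact mul_dvd_mul h2 h1
  · intro x hx
    have h2 : fix s0 x ∣ W := by rw [hW]; exact dvd_prod_of_mem (fun x => fix s0 x) hx
    exact cardFactors_le_of_dvd h2 hW0.ne'

theorem omega_bound {V : Finset (ℕ × ℕ)} {T Q s0 M K0 C S e Z : ℕ} {x : ℕ × ℕ}
    (hV : ∀ x ∈ V, 0 < x.1)
    (hmod : IsModV V T Q s0 M K0) (hx : x ∈ V) (hS : 2 ≤ S)
    (hZ : Z ≡ fix s0 x [MOD M]) (hZ0 : 0 < Z)
    (hs : ∀ q : ℕ, q.Prime → ¬ q ∣ M → q ∣ Z → S ≤ q ^ C)
    (hsize : Z ≤ S ^ e) : cardFactors Z ≤ K0 + e * C := by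
  obtain ⟨q0, hq0, hq0M⟩ := Nat.exists_prime_and_dvd hmod.gt.ne'
  obtain ⟨F, hF⟩ : ∃ F, F = fix s0 x := ⟨_, rfl⟩
  rw [← hF] at hZ
  have hmul : ∀ q : ℕ, q.Prime → q ∣ M → F * q ∣ M := by rw [hF]; exact hmod.mul x hx
  have hFM : F ∣ M := (dvd_mul_right F q0).trans (hmul q0 hq0 hq0M)
  have hFZ : F ∣ Z := ((hZ.of_dvd hFM).dvd_iff dvd_rfl).2 dvd_rfl
  obtain ⟨R, hR⟩ := hFZ
  have hF0 : 0 < F := by
    have := hV x hx
    rw [hF, fix]; positivity
  have hR0 : 0 < R := Nat.pos_of_ne_zero (by rintro rfl; simp at hR; omega)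
  have hRp : ∀ q : ℕ, q.Prime → q ∣ R → S ≤ q ^ C := by
    intro q hq hqR
    by_cases hqM : q ∣ M
    · exfalso
      have h1 : F * R ≡ F * 1 [MOD F * q] := by
        rw [← hR, mul_one]
        exact hZ.of_dvd (hmul q hq hqM)
      have h2 : R ≡ 1 [MOD q] := Nat.ModEq.mul_left_cancel' hF0.ne' h1
      have h3 : q ∣ 1 := (h2.dvd_iff dvd_rfl).1 hqR
      exact hq.one_lt.ne' (Nat.dvd_one.1 h3)
    · exact hs q hq hqM (by rw [hR]; exact hqR.mul_left _)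
  have hRle : R ≤ S ^ e := by
    have : R ≤ F * R := Nat.le_mul_of_pos_left _ hF0
    rw [← hR] at this
    exact this.trans hsize
  rw [hR, cardFactors_mul hF0.ne' hR0.ne']
  have h1 := cardFactors_le S C e hS R hR0.ne' hRp hRle
  have h2 : cardFactors F ≤ K0 := by rw [hF]; exact hmod.om x hx
  omega

end Pool.Agent.H6.AP
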