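import Mathlib
import Pool.Agent.H6.AP3.Sieve

set_option autoImplicit false

/-!
# The sieve for a finite set of linear forms
-/

open Finset

namespace Pool.Agent.H6.AP

open Pool.Agent.H6.Hooley Pool.Agent.H6.AP3

open scoped Classical in
theorem sieveV {V : Finset (ℕ × ℕ)} {J C T S0 : ℕ} (hJ : V.card ≤ J)
    (H : SieveProp (2 * J) C T S0)
    (m n D : ℕ) (S : ℕ) (hS : S0 ≤ S) :
    (S : ℝ) / Real.log S ^ C ≤
      (((range S).filter (fun s => ∀ q : ℕ, q.Prime → T < q → q ^ C ≤ S → ¬ q ∣ m →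
        ∀ x ∈ V, ¬ q ∣ x.1 → ¬ q ∣ (x.1 * (n + s * m) + x.2 * D) ^ 2 + x.1 ^ 2)).card : ℕ) := by
  have hform : ∀ (x : ℕ × ℕ) (s : ℕ), (x.1 * (n + s * m) + x.2 * D) ^ 2 + x.1 ^ 2 =
      (x.1 * m * s + (x.1 * n + x.2 * D)) ^ 2 + x.1 ^ 2 := by
    intro x s; ring
  have h := H (fun q s => ¬ q ∣ m ∧ ∃ x ∈ V, ¬ q ∣ x.1 ∧
    q ∣ (x.1 * m * s + (x.1 * n + x.2 * D)) ^ 2 + x.1 ^ 2) ?_ ?_ S hS
  · refine h.trans ?_
    norm_cast
    apply card_le_card
    intro s
    simp only [mem_filter, mem_range]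
    rintro ⟨h1, h2⟩
    refine ⟨h1, ?_⟩
    intro q hq hT hqS hqm x hx hqx hd
    rw [hform] at hd
    exact h2 q hq hT hqS ⟨hqm, x, hx, hqx, hd⟩
  · intro q s
    have key : ∀ x : ℕ × ℕ, q ∣ (x.1 * m * (s % q) + (x.1 * n + x.2 * D)) ^ 2 + x.1 ^ 2 ↔
        q ∣ (x.1 * m * s + (x.1 * n + x.2 * D)) ^ 2 + x.1 ^ 2 := by
      intro x
      have h1 : (x.1 * m * (s % q) + (x.1 * n + x.2 * D)) ^ 2 + x.1 ^ 2 ≡
          (x.1 * m * s + (x.1 * n + x.2 * D)) ^ 2 + x.1 ^ 2 [MOD q] := by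
        apply Nat.ModEq.add_right
        apply Nat.ModEq.pow
        apply Nat.ModEq.add_right
        apply Nat.ModEq.mul_left
        exact Nat.mod_modEq s q
      exact h1.dvd_iff dvd_rfl
    simp only [key]
  · intro q hq hT
    by_cases hqm : q ∣ m
    · refine rho_le ∅ ?_ (by simp)
      intro s _ hs
      exact absurd hqm hs.1
    · refine rho_le ((V.filter (fun x => ¬ q ∣ x.1)).biUnion (fun x => (range q).filter
        (fun s => q ∣ (x.1 * m * s + (x.1 * n + x.2 * D)) ^ 2 + x.1 ^ 2))) ?_ ?_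
      · intro s hs
        rintro ⟨h2, x, hx, hqx, hd⟩
        rw [mem_biUnion]
        exact ⟨x, mem_filter.2 ⟨hx, hqx⟩, mem_filter.2 ⟨mem_range.2 hs, hd⟩⟩
      · refine (card_biUnion_le_card_mul _ _ 2 ?_).trans ?_
        · intro x hx
          rw [mem_filter] at hx
          have hqxm : ¬ q ∣ x.1 * m := by
            intro h
            rcases hq.dvd_mul.1 h with h | h
            · exact hx.2 h
            · exact hqm h
          convert two_roots hq hqxm (x.1 * n + x.2 * D) (x.1 ^ 2)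
        · have : (V.filter (fun x => ¬ q ∣ x.1)).card ≤ V.card := card_filter_le _ _
          nlinarith

end Pool.Agent.H6.AP
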