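import Mathlib
import Pool.Agent.H6.AP3.Pairs
import Pool.Agent.H6.AP.Local
import Pool.Agent.H6.AP.Sieve
import Pool.Agent.H6.AP.Modulus

set_option autoImplicit false

/-!
# Construction of many pairs for a general system of edges
-/

open Finset ArithmeticFunction

namespace Pool.Agent.H6.AP

open Pool.Agent.H6.Hooley Pool.Agent.H6.AP3

/-- the vectors of a system of edges -/
def vec (E : Finset (ℕ × ℕ × ℕ × ℕ)) : Finset (ℕ × ℕ) :=
  E.image (fun x => (1, x.1)) ∪ E.image (fun x => (x.2.1, x.2.2.1))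

theorem mem_vec1 {E : Finset (ℕ × ℕ × ℕ × ℕ)} {x : ℕ × ℕ × ℕ × ℕ} (hx : x ∈ E) :
    (1, x.1) ∈ vec E := mem_union_left _ (mem_image.2 ⟨x, hx, rfl⟩)

theorem mem_vec2 {E : Finset (ℕ × ℕ × ℕ × ℕ)} {x : ℕ × ℕ × ℕ × ℕ} (hx : x ∈ E) :
    (x.2.1, x.2.2.1) ∈ vec E := mem_union_right _ (mem_image.2 ⟨x, hx, rfl⟩)

theorem vec_pos {Q s0 : ℕ} {E : Finset (ℕ × ℕ × ℕ × ℕ)} (hE : EdgeOK Q s0 E) :
    ∀ x ∈ vec E, 0 < x.1 := by
  intro x hx
  rcases mem_union.1 hx with h | h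
  · obtain ⟨z, _, rfl⟩ := mem_image.1 h
    exact one_pos
  · obtain ⟨z, hz, rfl⟩ := mem_image.1 h
    exact (hE z hz).1

/-- a bound for all the numbers in the system -/
def bnd (E : Finset (ℕ × ℕ × ℕ × ℕ)) : ℕ := 1 + ∑ x ∈ E, (x.1 + x.2.1 + x.2.2.1 + x.2.2.2)

theorem le_bnd {E : Finset (ℕ × ℕ × ℕ × ℕ)} {x : ℕ × ℕ × ℕ × ℕ} (hx : x ∈ E) :
    x.1 ≤ bnd E ∧ x.2.1 ≤ bnd E ∧ x.2.2.1 ≤ bnd E ∧ x.2.2.2 ≤ bnd E := by
  have h : x.1 + x.2.1 + x.2.2.1 + x.2.2.2 ≤ ∑ x ∈ E, (x.1 + x.2.1 + x.2.2.1 + x.2.2.2) :=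
    single_le_sum (f := fun x : ℕ × ℕ × ℕ × ℕ => x.1 + x.2.1 + x.2.2.1 + x.2.2.2)
      (fun _ _ => Nat.zero_le _) hx
  rw [bnd]
  omega

theorem vec_le_bnd {E : Finset (ℕ × ℕ × ℕ × ℕ)} {x : ℕ × ℕ} (hx : x ∈ vec E) :
    x.1 ≤ bnd E ∧ x.2 ≤ bnd E := by
  rcases mem_union.1 hx with h | h
  · obtain ⟨z, hz, rfl⟩ := mem_image.1 h
    have := le_bnd hz
    refine ⟨?_, this.1⟩
    simp only [bnd]; omega
  · obtain ⟨z, hz, rfl⟩ := mem_image.1 h
    have := le_bnd hz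
    exact ⟨this.2.1, this.2.2.1⟩

theorem size_bound {n D Y M S : ℕ} {x : ℕ × ℕ} (hx1 : x.1 ≤ Y) (hx2 : x.2 ≤ Y)
    (hM : 0 < M) (hS : 0 < S) (hn : n ≤ 2 * S * (M * D)) :
    x.1 * n + x.2 * D ≤ 3 * (Y * S * M) * D := by
  have h1 : x.1 * n ≤ Y * (2 * S * (M * D)) := Nat.mul_le_mul hx1 hn
  have h2 : x.2 * D ≤ Y * D := Nat.mul_le_mul_right _ hx2
  have h3 : Y * D ≤ Y * D * (S * M) := Nat.le_mul_of_pos_right _ (Nat.mul_pos hS hM)
  calc x.1 * n + x.2 * D ≤ Y * (2 * S * (M * D)) + Y * D * (S * M) := by omega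
    _ = 3 * (Y * S * M) * D := by ring

theorem sq_aux (t : ℕ) : (6 * t) ^ 2 + t ^ 2 ≤ (7 * t) ^ 2 := by
  have h : (7 * t) ^ 2 = (6 * t) ^ 2 + t ^ 2 + 12 * t ^ 2 := by ring
  rw [h]; exact Nat.le_add_right _ _

open scoped Classical in
theorem exists_pairs {Q s0 : ℕ} {E : Finset (ℕ × ℕ × ℕ × ℕ)} (hE : EdgeOK Q s0 E) (hQ : 0 < Q)
    (m : ℕ) (hm : 1 ≤ m) :
    ∃ K C3 S1 : ℕ, ∀ S : ℕ, S1 ≤ S → ∃ P : Finset (ℕ × ℕ), S ^ (2 * m) ≤ P.card ∧
      ∀ z ∈ P, 0 < z.2 ∧ z.2 ∣ z.1 ^ 2 + 1 ∧ z.1 ≡ s0 [MOD Q] ∧ z.2 ≡ 1 [MOD Q] ∧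
      (∀ x ∈ E, x.2.2.2 * z.2 ≤ z.1 ∧ cardFactors (nrm z.1 z.2 (1, x.1)) ≤ K ∧
        cardFactors (nrm z.1 z.2 (x.2.1, x.2.2.1)) ≤ K ∧
        x.2.1 * nrm z.1 z.2 (1, x.1) ≤ C3 * S ^ (2 * m + 2)) := by
  obtain ⟨V, hV⟩ : ∃ V, V = vec E := ⟨_, rfl⟩
  have hVpos : ∀ x ∈ V, 0 < x.1 := by rw [hV]; exact vec_pos hE
  obtain ⟨C, T, S0, hC, H⟩ := hooley (2 * (V.card + 1))
  have H' : SieveProp (2 * (V.card + 1)) C T S0 := H
  obtain ⟨M, K0, hmod⟩ := exists_modV V hVpos T Q s0 hQ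
  obtain ⟨Y0, hY0⟩ := sieveD' (Nat.le_add_left 1 V.card) hC H' M hmod.small
  obtain ⟨S2, hS2⟩ := Filter.eventually_atTop.1 (log_cmp m C hm)
  have hM : 0 < M := by have := hmod.gt; omega
  obtain ⟨B0, hB0⟩ : ∃ B0, B0 = bnd E := ⟨_, rfl⟩
  have hB0p : 0 < B0 := by rw [hB0, bnd]; omega
  refine ⟨K0 + (4 * m + 4) * C, 20 * B0 ^ 3 * M ^ 4,
    max (max 2 (max S0 Y0)) (max S2 (7 * (B0 * M ^ 3) + B0)), ?_⟩
  intro S hS
  have hSa : 2 ≤ S := (((le_max_left _ _).trans (le_max_left _ _))).trans hS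
  have hSb : S0 ≤ S :=
    ((((le_max_left _ _).trans (le_max_right _ _)).trans (le_max_left _ _))).trans hS
  have hSc : Y0 ≤ S :=
    ((((le_max_right _ _).trans (le_max_right _ _)).trans (le_max_left _ _))).trans hS
  have hSd : S2 ≤ S := (((le_max_left _ _).trans (le_max_right _ _))).trans hS
  have hSe : 7 * (B0 * M ^ 3) + B0 ≤ S :=
    (((le_max_right _ _).trans (le_max_right _ _))).trans hS
  obtain ⟨Y, hY⟩ : ∃ Y, Y = S ^ m := ⟨_, rfl⟩
  have hSY : S ≤ Y := by rw [hY]; exact Nat.le_self_pow (by omega) S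
  have hY1 : Y0 ≤ Y := hSc.trans hSY
  -- choices
  have hv : ∀ a b : ℕ, ∃ v : ℕ, Nat.Coprime (M * a + 1) (M * (b + 1)) →
      v < M * DD M a b ∧ v ≡ s0 [MOD M] ∧ DD M a b ∣ v ^ 2 + 1 ∧
        v * (M * (b + 1)) ≡ M * a + 1 [MOD DD M a b] := by
    intro a b
    by_cases h : Nat.Coprime (M * a + 1) (M * (b + 1))
    · obtain ⟨v, h1, h2, h3, h4⟩ := exists_v h (rfl : DD M a b = _) (by positivity)
        (DD_coprime M a b) hM s0
      exact ⟨v, fun _ => ⟨h1, h2, h3, h4⟩⟩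
    · exact ⟨0, fun h' => absurd h' h⟩
  choose v hv using hv
  obtain ⟨GA, hGA⟩ : ∃ GA : ℕ → Finset ℕ, GA = fun b => (range Y).filter (fun a =>
    (∀ q : ℕ, q.Prime → q ^ C ≤ Y → ¬ q ∣ (M * a + 1) ^ 2 + (M * (b + 1)) ^ 2) ∧
      Nat.Coprime (M * a + 1) (M * (b + 1))) := ⟨_, rfl⟩
  obtain ⟨GS, hGS⟩ : ∃ GS : ℕ → ℕ → Finset ℕ, GS = fun b a => (range S).filter (fun s =>
    ∀ q : ℕ, q.Prime → T < q → q ^ C ≤ S → ¬ q ∣ M * DD M a b → ∀ x ∈ V, ¬ q ∣ x.1 →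
      ¬ q ∣ (x.1 * (v a b + B0 * (M * DD M a b) + s * (M * DD M a b)) + x.2 * DD M a b) ^ 2
        + x.1 ^ 2) := ⟨_, rfl⟩
  have hGAmem : ∀ b a, a ∈ GA b → a < Y ∧ (∀ q : ℕ, q.Prime → q ∣ DD M a b → Y < q ^ C) ∧
      Nat.Coprime (M * a + 1) (M * (b + 1)) := by
    intro b a h
    rw [hGA] at h
    simp only [mem_filter, mem_range] at h
    refine ⟨h.1, ?_, h.2.2⟩
    intro q hq hqD
    by_contra hlt
    exact h.2.1 q hq (by omega) hqD
  have hGSmem : ∀ b a s, s ∈ GS b a → s < S ∧ (∀ x ∈ V, ∀ q : ℕ, q.Prime → T < q →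
      q ^ C ≤ S → ¬ q ∣ M * DD M a b → ¬ q ∣ x.1 →
      ¬ q ∣ (x.1 * (v a b + B0 * (M * DD M a b) + s * (M * DD M a b)) + x.2 * DD M a b) ^ 2
        + x.1 ^ 2) := by
    intro b a s h
    rw [hGS] at h
    simp only [mem_filter, mem_range] at h
    exact ⟨h.1, fun x hx q hq hT hqS hqM hqx => h.2 q hq hT hqS hqM x hx hqx⟩
  have hGAcard : ∀ b < Y, (Y : ℝ) / (2 * Real.log Y ^ C) ≤ ((GA b).card : ℝ) := by
    intro b hb
    have := hY0 Y hY1 (b + 1) (by omega) (by omega)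
    rw [hGA]
    exact this
  have hGScard : ∀ b a, (S : ℝ) / Real.log S ^ C ≤ ((GS b a).card : ℝ) := by
    intro b a
    have := sieveV (V := V) (Nat.le_succ _) H' (M * DD M a b)
      (v a b + B0 * (M * DD M a b)) (DD M a b) S hSb
    rw [hGS]
    exact this
  obtain ⟨Tr, hTr⟩ : ∃ Tr : Finset (Σ _ : ℕ, Σ _ : ℕ, ℕ),
    Tr = (range Y).sigma (fun b => (GA b).sigma (fun a => GS b a)) := ⟨_, rfl⟩
  have hTrmem : ∀ b a s, (⟨b, a, s⟩ : Σ _ : ℕ, Σ _ : ℕ, ℕ) ∈ Tr → b < Y ∧ a ∈ GA b ∧ s ∈ GS b a := by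
    intro b a s h
    rw [hTr, mem_sigma, mem_sigma, mem_range] at h
    exact ⟨h.1, h.2.1, h.2.2⟩
  have hTrcard : S ^ (2 * m) ≤ Tr.card := by
    have h1 : (Tr.card : ℝ) = ∑ b ∈ range Y, ∑ a ∈ GA b, ((GS b a).card : ℝ) := by
      rw [hTr, card_sigma]
      push_cast
      apply sum_congr rfl
      intro b _
      rw [card_sigma]
      push_cast
      rfl
    have h2 := hS2 S hSd
    have hYr : (S : ℝ) ^ m = Y := by rw [hY]; push_cast; rfl
    rw [hYr] at h2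
    have hSlog : 0 ≤ (S : ℝ) / Real.log S ^ C := by
      have : 0 ≤ Real.log S := Real.log_natCast_nonneg S
      positivity
    have h3 : (Y : ℝ) * ((Y : ℝ) / (2 * Real.log Y ^ C) * ((S : ℝ) / Real.log S ^ C)) ≤ Tr.card := by
      rw [h1]
      calc (Y : ℝ) * ((Y : ℝ) / (2 * Real.log Y ^ C) * ((S : ℝ) / Real.log S ^ C))
          = ∑ b ∈ range Y, ((Y : ℝ) / (2 * Real.log Y ^ C) * ((S : ℝ) / Real.log S ^ C)) := by
            rw [sum_const, card_range, nsmul_eq_mul]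
        _ ≤ ∑ b ∈ range Y, ∑ a ∈ GA b, ((GS b a).card : ℝ) := by
            apply sum_le_sum
            intro b hb
            rw [mem_range] at hb
            calc (Y : ℝ) / (2 * Real.log Y ^ C) * ((S : ℝ) / Real.log S ^ C)
                ≤ (GA b).card * ((S : ℝ) / Real.log S ^ C) := by
                  gcongr
                  exact hGAcard b hb
              _ = ∑ a ∈ GA b, ((S : ℝ) / Real.log S ^ C) := by rw [sum_const, nsmul_eq_mul]
              _ ≤ ∑ a ∈ GA b, ((GS b a).card : ℝ) := sum_le_sum fun a _ => hGScard b a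
    have h4 := h2.trans h3
    exact_mod_cast h4
  obtain ⟨f, hf⟩ : ∃ f : (Σ _ : ℕ, Σ _ : ℕ, ℕ) → ℕ × ℕ, f = fun x =>
    (v x.2.1 x.1 + B0 * (M * DD M x.2.1 x.1) + x.2.2 * (M * DD M x.2.1 x.1), DD M x.2.1 x.1) :=
      ⟨_, rfl⟩
  have hinj : Set.InjOn f (Tr : Set (Σ _ : ℕ, Σ _ : ℕ, ℕ)) := by
    rintro ⟨b, a, s⟩ hx ⟨b', a', s'⟩ hx' hxx
    rw [mem_coe] at hx hx'
    obtain ⟨h1, h2, h3⟩ := hTrmem _ _ _ hx
    obtain ⟨h1', h2', h3'⟩ := hTrmem _ _ _ hx'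
    obtain ⟨h4, h5, h6⟩ := hGAmem _ _ h2
    obtain ⟨h4', h5', h6'⟩ := hGAmem _ _ h2'
    obtain ⟨v1, v2, v3, v4⟩ := hv a b h6
    obtain ⟨v1', v2', v3', v4'⟩ := hv a' b' h6'
    rw [hf] at hxx
    simp only [Prod.mk.injEq] at hxx
    obtain ⟨e1, hDD⟩ := hxx
    rw [← hDD] at e1 v1' v3' v4'
    obtain ⟨R, hR⟩ : ∃ R, R = M * DD M a b := ⟨_, rfl⟩
    rw [← hR] at e1 v1 v1'
    have hR0 : 0 < R := by rw [hR]; exact Nat.mul_pos hM (DD_pos M a b)
    have e1' : v a b + s * R = v a' b' + s' * R := by omega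
    have e3 : s = s' := by
      have g1 : (v a b + s * R) / R = s := by
        rw [Nat.add_mul_div_right _ _ hR0, Nat.div_eq_of_lt v1, zero_add]
      have g2 : (v a' b' + s' * R) / R = s' := by
        rw [Nat.add_mul_div_right _ _ hR0, Nat.div_eq_of_lt v1', zero_add]
      rw [← g1, ← g2, e1']
    rw [e3] at e1'
    have e4 : v a b = v a' b' := by omega
    rw [← e4] at v3' v4'
    obtain ⟨e5, e6⟩ := unique_ab (rfl : DD M a b = _) (hDD : DD M a b = _) (by positivity)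
      (by positivity) (by positivity) (by positivity) v3 v4 v4'
    have e7 : a = a' := by
      have := Nat.add_right_cancel e5
      exact Nat.eq_of_mul_eq_mul_left hM this
    have e8 : b = b' := by
      have := Nat.eq_of_mul_eq_mul_left hM e6
      omega
    rw [e3, e7, e8]
  refine ⟨Tr.image f, ?_, ?_⟩
  · rw [card_image_of_injOn hinj]
    exact hTrcard
  · intro x hx
    rw [mem_image] at hx
    obtain ⟨⟨b, a, s⟩, hx, rfl⟩ := hx
    obtain ⟨h1, h2, h3⟩ := hTrmem _ _ _ hx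
    obtain ⟨h4, h5, h6⟩ := hGAmem _ _ h2
    obtain ⟨h7, h8⟩ := hGSmem _ _ _ h3
    obtain ⟨v1, v2, v3, v4⟩ := hv a b h6
    rw [hf]
    simp only
    have hDpos := DD_pos M a b
    have hDmod := DD_mod M a b
    have hDle := DD_le hM h4 h1
    have hDcop := DD_coprime M a b
    generalize DD M a b = D at *
    generalize v a b = w at *
    obtain ⟨n, hn⟩ : ∃ n, n = w + B0 * (M * D) + s * (M * D) := ⟨_, rfl⟩
    rw [← hn] at h8 ⊢
    have hneq : n = w + (B0 + s) * M * D := by rw [hn]; ring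
    have hnmod : n ≡ s0 [MOD M] := by
      have g1 : (B0 + s) * M * D ≡ 0 [MOD M] :=
        (Nat.modEq_zero_iff_dvd).2 ((Dvd.dvd.mul_left dvd_rfl (B0 + s)).mul_right D)
      have g2 := v2.add g1
      rwa [add_zero, ← hneq] at g2
    have hnD : D ∣ n ^ 2 + 1 := by
      have g1 : n ≡ w [MOD D] := by
        have g1 : (B0 + s) * M * D ≡ 0 [MOD D] :=
          (Nat.modEq_zero_iff_dvd).2 (dvd_mul_left D _)
        have g2 := (Nat.ModEq.refl w).add g1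
        rwa [add_zero, ← hneq] at g2
      exact (((g1.pow 2).add_right 1).dvd_iff dvd_rfl).2 v3
    have hnle : n ≤ 2 * S * (M * D) := by
      have g1 : (B0 + s + 1) * (M * D) ≤ 2 * S * (M * D) := by
        apply Nat.mul_le_mul_right
        omega
      calc n = w + (B0 + s) * (M * D) := by rw [hneq]; ring
        _ ≤ (B0 + s + 1) * (M * D) := by nlinarith
        _ ≤ _ := g1
    have hnge : B0 * D ≤ n := by
      calc B0 * D ≤ B0 * (M * D) := Nat.mul_le_mul_left _ (Nat.le_mul_of_pos_left _ hM)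
        _ ≤ n := by rw [hn]; omega
    -- the bound for the number of prime factors
    have hOm : ∀ x ∈ V, cardFactors (nrm n D x) ≤ K0 + (4 * m + 4) * C := by
      intro x hx
      have hxpos := hVpos x hx
      have hxb := vec_le_bnd (E := E) (x := x) (by rw [← hV]; exact hx)
      rw [← hB0] at hxb
      obtain ⟨Z, hZ⟩ : ∃ Z, Z = (x.1 * n + x.2 * D) ^ 2 + x.1 ^ 2 := ⟨_, rfl⟩
      have hZ0 : 0 < Z := by rw [hZ]; positivity
      have hnZ : nrm n D x ∣ Z := ⟨D, by rw [hZ]; exact (nrm_mul hnD x).symm⟩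
      refine (cardFactors_le_of_dvd hnZ hZ0.ne').trans ?_
      refine omega_bound (S := S) hVpos hmod hx hSa ?_ hZ0 ?_ ?_
      · rw [hZ, fix]
        have g1 : x.1 * n + x.2 * D ≡ x.1 * s0 + x.2 [MOD M] := by
          have g2 := hDmod.mul_left x.2
          rw [mul_one] at g2
          exact (hnmod.mul_left x.1).add g2
        exact (g1.pow 2).add_right _
      · intro q hq hqM hqZ
        by_cases hqD : q ∣ D
        · exact hSY.trans (h5 q hq hqD).le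
        · by_contra hlt
          refine h8 x hx q hq ?_ (by omega) ?_ ?_ ?_
          · by_contra hT
            exact hqM (hmod.small q hq (by omega))
          · intro h
            rcases hq.dvd_mul.1 h with h | h
            · exact hqM h
            · exact hqD h
          · intro h
            exact hqM (h.trans (hmod.coef x hx))
          · rw [← hZ]; exact hqZ
      · have g1 := size_bound hxb.1 hxb.2 hM (by omega : 0 < S) hnle
        have g2 : 3 * (B0 * S * M) * D ≤ 6 * (B0 * M ^ 3 * S ^ (2 * m + 1)) := by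
          calc 3 * (B0 * S * M) * D ≤ 3 * (B0 * S * M) * (2 * M ^ 2 * Y ^ 2) := by gcongr
            _ = _ := by rw [hY]; ring
        have g3 : x.1 ≤ B0 * M ^ 3 * S ^ (2 * m + 1) := by
          refine hxb.1.trans ?_
          rw [mul_assoc]
          exact Nat.le_mul_of_pos_right _ (Nat.mul_pos (pow_pos hM _) (pow_pos (by omega) _))
        have g4 : 7 * (B0 * M ^ 3 * S ^ (2 * m + 1)) ≤ S ^ (2 * m + 2) := by
          calc 7 * (B0 * M ^ 3 * S ^ (2 * m + 1)) = (7 * (B0 * M ^ 3)) * S ^ (2 * m + 1) := by ring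
            _ ≤ S * S ^ (2 * m + 1) := by gcongr; omega
            _ = S ^ (2 * m + 2) := by ring
        obtain ⟨t, ht⟩ : ∃ t, t = B0 * M ^ 3 * S ^ (2 * m + 1) := ⟨_, rfl⟩
        rw [← ht] at g2 g3 g4
        calc Z = (x.1 * n + x.2 * D) ^ 2 + x.1 ^ 2 := hZ
          _ ≤ (6 * t) ^ 2 + t ^ 2 := by gcongr; exact g1.trans g2
          _ ≤ (7 * t) ^ 2 := sq_aux t
          _ ≤ (S ^ (2 * m + 2)) ^ 2 := by gcongr
          _ = S ^ (4 * m + 4) := by ring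
    refine ⟨hDpos, hnD, hnmod.of_dvd hmod.base, hDmod.of_dvd hmod.base, ?_⟩
    intro x hx
    have hxb := le_bnd hx
    rw [← hB0] at hxb
    refine ⟨?_, hOm _ (by rw [hV]; exact mem_vec1 hx), hOm _ (by rw [hV]; exact mem_vec2 hx), ?_⟩
    · exact (Nat.mul_le_mul_right _ hxb.2.2.2).trans hnge
    · have g1 := size_bound (x := (1, x.1)) (n := n) (D := D) (Y := B0) (M := M) (S := S)
        (Nat.succ_le_of_lt hB0p) hxb.1 hM (by omega : 0 < S) hnle
      simp only at g1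
      have g2 := nrm_mul hnD (1, x.1)
      simp only at g2
      have g3 : nrm n D (1, x.1) ≤ 10 * (B0 * S * M) ^ 2 * D := by
        obtain ⟨L, hL⟩ : ∃ L, L = B0 * S * M := ⟨_, rfl⟩
        rw [← hL] at g1 ⊢
        have hL1 : 1 ≤ L := by
          rw [hL]; exact Nat.succ_le_of_lt (Nat.mul_pos (Nat.mul_pos hB0p (by omega)) hM)
        by_contra hcon
        push Not at hcon
        have g4 : 10 * L ^ 2 * D * D < nrm n D (1, x.1) * D :=
          Nat.mul_lt_mul_of_pos_right hcon hDpos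
        rw [g2] at g4
        have g5 : (1 * n + x.1 * D) ^ 2 + 1 ^ 2 ≤ (3 * L * D) ^ 2 + (L * D) ^ 2 := by
          gcongr
          exact Nat.succ_le_of_lt (Nat.mul_pos hL1 hDpos)
        have g6 : (3 * L * D) ^ 2 + (L * D) ^ 2 = 10 * L ^ 2 * D * D := by ring
        rw [g6] at g5
        exact absurd (lt_of_lt_of_le g4 g5) (lt_irrefl _)
      calc x.2.1 * nrm n D (1, x.1) ≤ B0 * (10 * (B0 * S * M) ^ 2 * (2 * M ^ 2 * Y ^ 2)) := by
            gcongr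
            · exact hxb.2.1
            · exact g3.trans (by gcongr)
        _ = 20 * B0 ^ 3 * M ^ 4 * S ^ (2 * m + 2) := by rw [hY]; ring

end Pool.Agent.H6.AP
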