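import Mathlib
import Pool.Agent.H6.AP.Pairs

set_option autoImplicit false

/-!
# Almost primes `a^2+1` from a finite system of edges without good colouring
-/

open Finset ArithmeticFunction

namespace Pool.Agent.H6.AP

open Pool.Agent.H6.Hooley Pool.Agent.H6.AP3

/-- **Counting theorem.** Let `E` be a finite system of edges. For every `ε > 0` there are `K` and
`X0` such that for all `X ≥ X0`, all completely additive `g : ℕ → ZMod k` and all classes `r` for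
which the system `E` has no good colouring, at least `X ^ (1 - ε)` of the integers `1 ≤ a ≤ X` are
such that `a ^ 2 + 1` has at most `K` prime factors and `g (a ^ 2 + 1) = r`. -/
theorem count {Q s0 m0 : ℕ} {E : Finset (ℕ × ℕ × ℕ × ℕ)} (hQ : 0 < Q) (hm0 : m0 ∣ Q)
    (hE : EdgeOK Q s0 E) (hE2 : ∀ x ∈ E, m0 ∣ x.1 ∧ m0 ∣ x.2.1) (ε : ℝ) (hε : 0 < ε) :
    ∃ K X0 : ℕ, ∀ X : ℕ, X0 ≤ X → ∀ k : ℕ, ∀ g : ℕ → ZMod k,
      (∀ m n : ℕ, m ≠ 0 → n ≠ 0 → g (m * n) = g m + g n) → ∀ r : ZMod k, Unsat E g r →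
      (X : ℝ) ^ (1 - ε) ≤ ((Icc 1 X).filter
        (fun a => m0 ∣ a + s0 ∧ cardFactors (a ^ 2 + 1) ≤ K ∧ g (a ^ 2 + 1) = r)).card := by
  obtain ⟨m1, hm1⟩ := exists_nat_ge (4 / ε)
  obtain ⟨m, hm⟩ : ∃ m, m = m1 + 1 := ⟨_, rfl⟩
  have hmε : 4 ≤ (2 * m + 3 : ℝ) * ε := by
    have h1 : 4 ≤ (m1 : ℝ) * ε := by rwa [div_le_iff₀ hε] at hm1
    have h2 : (m1 : ℝ) ≤ 2 * m + 3 := by rw [hm]; push_cast; linarith [Nat.cast_nonneg (α := ℝ) m1]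
    nlinarith
  obtain ⟨K, C3, S1, H⟩ := exists_pairs hE hQ m (by omega)
  obtain ⟨C5, hC5⟩ : ∃ C5 : ℕ, C5 = E.card * 2 ^ (2 * K) + 1 := ⟨_, rfl⟩
  obtain ⟨S2, hS2⟩ : ∃ S2 : ℕ, S2 = S1 + C3 + C5 * 2 ^ (2 * m - 1) + 1 := ⟨_, rfl⟩
  refine ⟨2 * K, S2 ^ (2 * m + 3), ?_⟩
  intro X hX k g hg r hU
  obtain ⟨S, hS⟩ : ∃ S : ℕ, S = ⌊(X : ℝ) ^ ((1 : ℝ) / (2 * m + 3 : ℕ))⌋₊ := ⟨_, rfl⟩
  have hX0 : (0 : ℝ) ≤ X := Nat.cast_nonneg X
  have hroot : ((X : ℝ) ^ ((1 : ℝ) / (2 * m + 3 : ℕ))) ^ (2 * m + 3) = X := by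
    rw [one_div, Real.rpow_inv_natCast_pow hX0 (by omega)]
  have hrn : 0 ≤ (X : ℝ) ^ ((1 : ℝ) / (2 * m + 3 : ℕ)) := by positivity
  have hSS : S2 ≤ S := by
    rw [hS, Nat.le_floor_iff hrn]
    rw [← pow_le_pow_iff_left₀ (Nat.cast_nonneg _) hrn (show 2 * m + 3 ≠ 0 by omega), hroot]
    exact_mod_cast hX
  have hSX : S ^ (2 * m + 3) ≤ X := by
    have h1 : (S : ℝ) ≤ (X : ℝ) ^ ((1 : ℝ) / (2 * m + 3 : ℕ)) := by
      rw [hS]; exact Nat.floor_le hrn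
    have h2 := pow_le_pow_left₀ (Nat.cast_nonneg S) h1 (2 * m + 3)
    rw [hroot] at h2
    exact_mod_cast h2
  have hXS : (X : ℝ) ≤ (2 * S) ^ (2 * m + 3) := by
    have h1 : (X : ℝ) ^ ((1 : ℝ) / (2 * m + 3 : ℕ)) ≤ S + 1 := by
      rw [hS]; exact (Nat.lt_floor_add_one _).le
    have h3 : (1 : ℝ) ≤ S := by exact_mod_cast (by omega : 1 ≤ S)
    have h2 := pow_le_pow_left₀ hrn (h1.trans (by linarith : (S : ℝ) + 1 ≤ 2 * S)) (2 * m + 3)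
    rwa [hroot] at h2
  obtain ⟨P, hPcard, hP⟩ := H S (by omega)
  have hcount := count_step (K := K) (X := X) hE hm0 hE2 g hg r hU P (by
    intro z hz
    obtain ⟨h1, h2, h3, h4, h5⟩ := hP z hz
    refine ⟨h1, h2, h3, h4, ?_⟩
    intro x hx
    obtain ⟨k1, k2, k3, k4⟩ := h5 x hx
    refine ⟨k1, k2, k3, k4.trans ?_⟩
    refine le_trans ?_ hSX
    calc C3 * S ^ (2 * m + 2) ≤ S * S ^ (2 * m + 2) := by
          gcongr; omega
      _ = S ^ (2 * m + 3) := by ring)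
  set G := (Icc 1 X).filter
    (fun a => m0 ∣ a + s0 ∧ cardFactors (a ^ 2 + 1) ≤ 2 * K ∧ g (a ^ 2 + 1) = r) with hG
  have hcount' : P.card ≤ G.card * C5 := by
    refine hcount.trans ?_
    rw [hC5]
    exact Nat.mul_le_mul_left _ (Nat.le_succ _)
  have h1 : (S : ℝ) ^ (2 * m) ≤ G.card * C5 := by
    exact_mod_cast hPcard.trans hcount'
  have hS1 : (1 : ℝ) ≤ S := by exact_mod_cast (by omega : 1 ≤ S)
  have hC5p : (0 : ℝ) < C5 := by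
    have : 0 < C5 := by rw [hC5]; positivity
    exact_mod_cast this
  have h2 : (2 * (S : ℝ)) ^ (2 * m - 1) * C5 ≤ (S : ℝ) ^ (2 * m) := by
    have h3 : (C5 : ℝ) * 2 ^ (2 * m - 1) ≤ S := by
      have : C5 * 2 ^ (2 * m - 1) ≤ S := by omega
      exact_mod_cast this
    have h4 : 2 * m = (2 * m - 1) + 1 := by omega
    calc (2 * (S : ℝ)) ^ (2 * m - 1) * C5 = (S : ℝ) ^ (2 * m - 1) * (C5 * 2 ^ (2 * m - 1)) := by
          rw [mul_pow]; ring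
      _ ≤ (S : ℝ) ^ (2 * m - 1) * S := by gcongr
      _ = (S : ℝ) ^ (2 * m) := by rw [← pow_succ, ← h4]
  have h3 : (X : ℝ) ^ (1 - ε) ≤ (2 * (S : ℝ)) ^ (2 * m - 1) := by
    have h2S : (1 : ℝ) ≤ 2 * S := by linarith
    rcases le_total ε 1 with hε1 | hε1
    · calc (X : ℝ) ^ (1 - ε) ≤ ((2 * (S : ℝ)) ^ (2 * m + 3)) ^ (1 - ε) :=
            Real.rpow_le_rpow hX0 hXS (by linarith)
        _ = (2 * (S : ℝ)) ^ (((2 * m + 3 : ℕ) : ℝ) * (1 - ε)) := by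
            rw [← Real.rpow_natCast, ← Real.rpow_mul (by linarith)]
        _ ≤ (2 * (S : ℝ)) ^ ((2 * m - 1 : ℕ) : ℝ) := by
            apply Real.rpow_le_rpow_of_exponent_le h2S
            rw [Nat.cast_sub (by omega)]
            push_cast
            nlinarith
        _ = (2 * (S : ℝ)) ^ (2 * m - 1) := Real.rpow_natCast _ _
    · have hX1 : (1 : ℝ) ≤ X := by
        have : 1 ≤ X := le_trans (Nat.one_le_pow _ _ (by omega)) hSX
        exact_mod_cast this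
      calc (X : ℝ) ^ (1 - ε) ≤ 1 := Real.rpow_le_one_of_one_le_of_nonpos hX1 (by linarith)
        _ ≤ (2 * (S : ℝ)) ^ (2 * m - 1) := one_le_pow₀ h2S
  have h4 : (X : ℝ) ^ (1 - ε) * C5 ≤ G.card * C5 :=
    (mul_le_mul_of_nonneg_right h3 hC5p.le).trans (h2.trans h1)
  exact le_of_mul_le_mul_right h4 hC5p

end Pool.Agent.H6.AP
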